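import Pool.Agent.Q109.ISat.Stm

set_option autoImplicit false

/-! # Project ISat (helper109), job E4: the exceptional hypergraph with four vertices -/

namespace Q185.ISatE4

open Set Q109.ISat

/-! ### two dense sets of rational numbers -/

/-- dyadic rational numbers -/
def Dy (t : ℚ) : Prop := ∃ (n : ℤ) (k : ℕ), t * 2 ^ k = n

theorem dy_dense {l u : ℚ} (h : l < u) : ∃ t, l < t ∧ t < u ∧ Dy t := by
  obtain ⟨k, hk⟩ := pow_unbounded_of_one_lt (1 / (u - l)) (show (1 : ℚ) < 2 by norm_num)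
  have h2 : (0 : ℚ) < 2 ^ k := by positivity
  have h3 : 1 < 2 ^ k * (u - l) := by
    rw [div_lt_iff₀ (by linarith)] at hk
    exact hk
  refine ⟨(⌊l * 2 ^ k⌋ + 1 : ℤ) / 2 ^ k, ?_, ?_, ⌊l * 2 ^ k⌋ + 1, k, ?_⟩
  · rw [lt_div_iff₀ h2]
    push_cast
    exact Int.lt_floor_add_one _
  · rw [div_lt_iff₀ h2]
    push_cast
    have := Int.floor_le (l * 2 ^ k)
    linarith
  · rw [div_mul_cancel₀ _ h2.ne']

theorem ndy_dense {l u : ℚ} (h : l < u) : ∃ t, l < t ∧ t < u ∧ ¬ Dy t := by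
  obtain ⟨t, h1, h2, n, k, hn⟩ := dy_dense (show l - 1 / 3 < u - 1 / 3 by linarith)
  refine ⟨t + 1 / 3, by linarith, by linarith, ?_⟩
  rintro ⟨m, j, hm⟩
  have h3 : (2 : ℚ) ^ (j + k) = 3 * (m * 2 ^ k - n * 2 ^ j) := by
    rw [← hm, ← hn]
    ring
  have h4 : (2 : ℤ) ^ (j + k) = 3 * (m * 2 ^ k - n * 2 ^ j) := by exact_mod_cast h3
  have h5 : (3 : ℤ) ∣ 2 ^ (j + k) := ⟨_, h4⟩
  have h6 : (3 : ℤ) ∣ 2 := Int.prime_three.dvd_of_dvd_pow h5
  omega

theorem avoid (F : Finset ℚ) {l u : ℚ} (h : l < u) : ∃ l', l ≤ l' ∧ l' < u ∧ ∀ t ∈ F, ¬ (l' < t ∧ t < u) := by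
  induction F using Finset.induction_on with
  | empty => exact ⟨l, le_rfl, h, by simp⟩
  | insert a F _ ih =>
    obtain ⟨l', h1, h2, h3⟩ := ih
    by_cases ha : l' < a ∧ a < u
    · refine ⟨a, h1.trans ha.1.le, ha.2, fun t ht hh => ?_⟩
      rcases Finset.mem_insert.1 ht with rfl | ht
      · exact lt_irrefl _ hh.1
      · exact h3 t ht ⟨ha.1.trans hh.1, hh.2⟩
    · refine ⟨l', h1, h2, fun t ht hh => ?_⟩
      rcases Finset.mem_insert.1 ht with rfl | ht
      · exact ha hh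
      · exact h3 t ht hh

/-! ### the tree -/

/-- the properties of the tree distance -/
structure Tr (D : ℕ → ℕ → ℚ) : Prop where
  sym : ∀ x y, D x y = D y x
  um : ∀ x y z, x ≠ y → x ≠ z → y ≠ z → min (D x y) (D y z) ≤ D x z
  bin : ∀ x y z, x ≠ y → x ≠ z → y ≠ z → ¬ (D x y = D x z ∧ D x y = D y z)
  rich : ∀ x (t : ℚ), ∃ w, w ≠ x ∧ D w x = t

/-- the hypergraph -/
def GG (D : ℕ → ℕ → ℚ) : Set (Finset ℕ) :=
  {f | ∃ x ∈ f, ∃ y ∈ f, x ≠ y ∧ Dy (D x y) ∧ ∀ a ∈ f, ∀ b ∈ f, a ≠ b → D x y ≤ D a b}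

theorem perm1 (x y z : ℕ) : ({x, y, z} : Finset ℕ) = {x, z, y} := by
  ext v; simp only [Finset.mem_insert, Finset.mem_singleton]; tauto

theorem perm2 (x y z : ℕ) : ({x, y, z} : Finset ℕ) = {y, x, z} := by
  ext v; simp only [Finset.mem_insert, Finset.mem_singleton]; tauto

theorem perm3 (x y z : ℕ) : ({x, y, z} : Finset ℕ) = {z, x, y} := by
  ext v; simp only [Finset.mem_insert, Finset.mem_singleton]; tauto

theorem perm4 (x y z : ℕ) : ({x, y, z} : Finset ℕ) = {y, z, x} := by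
  ext v; simp only [Finset.mem_insert, Finset.mem_singleton]; tauto

theorem sd_iff {G P : Set (Finset ℕ)} {e : Finset ℕ} (h : e ∉ P) : e ∈ symmDiff G P ↔ e ∈ G := by
  rw [Set.mem_symmDiff]
  constructor
  · rintro (⟨h1, _⟩ | ⟨h1, _⟩)
    · exact h1
    · exact absurd h1 h
  · intro h1
    exact Or.inl ⟨h1, h⟩

theorem sd_iff' {G P : Set (Finset ℕ)} {e : Finset ℕ} (h : e ∈ P) : e ∈ symmDiff G P ↔ e ∉ G := by
  rw [Set.mem_symmDiff]
  constructor
  · rintro (⟨_, h1⟩ | ⟨_, h1⟩)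
    · exact absurd h h1
    · exact h1
  · intro h1
    exact Or.inr ⟨h, h1⟩

section tree
variable {D : ℕ → ℕ → ℚ} (T : Tr D)
include T

theorem mem_GG {x y z : ℕ} (hxy : x ≠ y) (h1 : D x y ≤ D x z)
    (h2 : D x y ≤ D y z) : ({x, y, z} : Finset ℕ) ∈ GG D ↔ Dy (D x y) := by
  have hall : ∀ a ∈ ({x, y, z} : Finset ℕ), ∀ b ∈ ({x, y, z} : Finset ℕ), a ≠ b → D x y ≤ D a b := by
    intro a ha b hb hab
    simp only [Finset.mem_insert, Finset.mem_singleton] at ha hb
    rcases ha with rfl | rfl | rfl <;> rcases hb with rfl | rfl | rfl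
    · exact absurd rfl hab
    · exact le_rfl
    · exact h1
    · exact (T.sym _ _).le
    · exact absurd rfl hab
    · exact h2
    · rw [T.sym a b]; exact h1
    · rw [T.sym a b]; exact h2
    · exact absurd rfl hab
  constructor
  · rintro ⟨a, ha, b, hb, hab, hd, hm⟩
    have e1 := hm x (by simp) y (by simp) hxy
    have e2 := hall a ha b hb hab
    rw [le_antisymm e2 e1]
    exact hd
  · intro h
    exact ⟨x, by simp, y, by simp, hxy, h, hall⟩

/-- in every triple the least value occurs exactly twice; names can be chosen -/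
theorem order3 (f : Finset ℕ) (hf : f.card = 3) : ∃ x y z, x ≠ y ∧ x ≠ z ∧ y ≠ z ∧ f = {x, y, z} ∧
    D x z < D x y ∧ D y z = D x z := by
  obtain ⟨a, b, c, hab, hac, hbc, rfl⟩ := Finset.card_eq_three.1 hf
  have u1 := T.um a b c hab hac hbc
  have u2 := T.um a c b hac hab hbc.symm
  have u3 := T.um b a c hab.symm hbc hac
  have u4 := T.bin a b c hab hac hbc
  rw [T.sym c b] at u2
  rw [T.sym b a] at u3
  -- u1 : min ab bc ≤ ac; u2 : min ac bc ≤ ab; u3 : min ab ac ≤ bc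
  rcases lt_trichotomy (D a b) (D a c) with h | h | h
  · -- ab < ac: then bc = ab
    have e1 : D b c ≤ D a b := by
      rcases min_le_iff.1 u2 with h' | h'
      · linarith
      · exact h'
    have e2 : D a b ≤ D b c := by
      rcases min_le_iff.1 u3 with h' | h'
      · exact h'
      · linarith
    refine ⟨a, c, b, hac, hab, hbc.symm, ?_, h, ?_⟩
    · ext v; simp only [Finset.mem_insert, Finset.mem_singleton]; tauto
    · rw [T.sym c b]
      exact le_antisymm e1 e2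
  · -- ab = ac: bc bigger
    have e2 : D a b ≤ D b c := by
      rcases min_le_iff.1 u3 with h' | h'
      · exact h'
      · rw [h]; exact h'
    have e3 : D a b < D b c := lt_of_le_of_ne e2 fun h' => u4 ⟨h, h'⟩
    refine ⟨b, c, a, hbc, hab.symm, hac.symm, ?_, ?_, ?_⟩
    · ext v; simp only [Finset.mem_insert, Finset.mem_singleton]; tauto
    · rw [T.sym b a]; exact e3
    · rw [T.sym c a, T.sym b a]; exact h.symm
  · -- ac < ab : bc = ac
    have e1 : D b c ≤ D a c := by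
      rcases min_le_iff.1 u1 with h' | h'
      · linarith
      · exact h'
    have e2 : D a c ≤ D b c := by
      rcases min_le_iff.1 u3 with h' | h'
      · linarith
      · exact h'
    exact ⟨a, b, c, hab, hac, hbc, rfl, h, le_antisymm e1 e2⟩

/-- a pair with the least value of four vertices: the two triples through it have the same status -/
theorem same {x y z w : ℕ} (hxy : x ≠ y) (h1 : D x y ≤ D x z)
    (h2 : D x y ≤ D y z) (h3 : D x y ≤ D x w) (h4 : D x y ≤ D y w) :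
    ({x, y, z} : Finset ℕ) ∈ GG D ↔ ({x, y, w} : Finset ℕ) ∈ GG D := by
  rw [mem_GG T hxy h1 h2, mem_GG T hxy h3 h4]

/-- no copy -/
theorem nocopy {a b c d : ℕ} (hab : a ≠ b) (hac : a ≠ c) (had : a ≠ d) (hbc : b ≠ c) (hbd : b ≠ d)
    (hcd : c ≠ d) (h1 : ({a, c, d} : Finset ℕ) ∈ GG D) (h2 : ({b, c, d} : Finset ℕ) ∈ GG D)
    (h3 : ({a, b, c} : Finset ℕ) ∉ GG D) (h4 : ({a, b, d} : Finset ℕ) ∉ GG D) : False := by
  -- the mixed pairs are not minimal
  have q1 : ¬ (D a c ≤ D a b ∧ D a c ≤ D b c ∧ D a c ≤ D a d ∧ D a c ≤ D c d) := by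
    rintro ⟨e1, e2, e3, e4⟩
    have := same T (x := a) (y := c) (z := b) (w := d) hac e1 (by rwa [T.sym c b]) e3 e4
    rw [perm1 a c b] at this
    exact h3 (this.2 h1)
  have q2 : ¬ (D a d ≤ D a b ∧ D a d ≤ D b d ∧ D a d ≤ D a c ∧ D a d ≤ D c d) := by
    rintro ⟨e1, e2, e3, e4⟩
    have := same T (x := a) (y := d) (z := b) (w := c) had e1 (by rwa [T.sym d b]) e3 (by rwa [T.sym d c])
    rw [perm1 a d b, perm1 a d c] at this
    exact h4 (this.2 h1)
  have q3 : ¬ (D b c ≤ D a b ∧ D b c ≤ D a c ∧ D b c ≤ D b d ∧ D b c ≤ D c d) := by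
    rintro ⟨e1, e2, e3, e4⟩
    have := same T (x := b) (y := c) (z := a) (w := d) hbc (by rwa [T.sym b a]) (by rwa [T.sym c a]) e3 e4
    rw [perm1 b c a, perm2 b a c] at this
    exact h3 (this.2 h2)
  have q4 : ¬ (D b d ≤ D a b ∧ D b d ≤ D a d ∧ D b d ≤ D b c ∧ D b d ≤ D c d) := by
    rintro ⟨e1, e2, e3, e4⟩
    have := same T (x := b) (y := d) (z := a) (w := c) hbd (by rwa [T.sym b a]) (by rwa [T.sym d a]) e3
      (by rwa [T.sym d c])
    rw [perm1 b d a, perm2 b a d, perm1 b d c] at this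
    exact h4 (this.2 h2)
  have u1 := T.um a c b hac hab hbc.symm
  have u2 := T.um c a d hac.symm hcd had
  rw [T.sym c b] at u1
  rw [T.sym c a] at u2
  have u3 := T.um a d b had hab hbd.symm
  rw [T.sym d b] at u3
  have u4 := T.um c b d hbc.symm hcd hbd
  rw [T.sym c b] at u4
  obtain ⟨p, hp⟩ : ∃ p, p = D a b := ⟨_, rfl⟩
  obtain ⟨q, hq⟩ : ∃ q, q = D a c := ⟨_, rfl⟩
  obtain ⟨r, hr⟩ : ∃ r, r = D a d := ⟨_, rfl⟩
  obtain ⟨s, hs⟩ : ∃ s, s = D b c := ⟨_, rfl⟩
  obtain ⟨t, ht⟩ : ∃ t, t = D b d := ⟨_, rfl⟩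
  obtain ⟨v, hv⟩ : ∃ v, v = D c d := ⟨_, rfl⟩
  simp only [← hp, ← hq, ← hr, ← hs, ← ht, ← hv] at *
  -- the least of the mixed values
  have key : ∃ m, (m = q ∨ m = r ∨ m = s ∨ m = t) ∧ m ≤ q ∧ m ≤ r ∧ m ≤ s ∧ m ≤ t := by
    rcases le_total q r with h | h <;> rcases le_total s t with h' | h'
    · rcases le_total q s with h'' | h''
      · exact ⟨q, Or.inl rfl, le_rfl, h, h'', h''.trans h'⟩
      · exact ⟨s, Or.inr (Or.inr (Or.inl rfl)), h'', h''.trans h, le_rfl, h'⟩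
    · rcases le_total q t with h'' | h''
      · exact ⟨q, Or.inl rfl, le_rfl, h, h''.trans h', h''⟩
      · exact ⟨t, Or.inr (Or.inr (Or.inr rfl)), h'', h''.trans h, h', le_rfl⟩
    · rcases le_total r s with h'' | h''
      · exact ⟨r, Or.inr (Or.inl rfl), h, le_rfl, h'', h''.trans h'⟩
      · exact ⟨s, Or.inr (Or.inr (Or.inl rfl)), h''.trans h, h'', le_rfl, h'⟩
    · rcases le_total r t with h'' | h''
      · exact ⟨r, Or.inr (Or.inl rfl), h, le_rfl, h''.trans h', h''⟩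
      · exact ⟨t, Or.inr (Or.inr (Or.inr rfl)), h''.trans h, h'', h', le_rfl⟩
  obtain ⟨m, hm, m1, m2, m3, m4⟩ := key
  -- m ≤ p and m ≤ v by the inequalities of the tree
  have mp : m ≤ p := (le_min m1 m3).trans u1
  have mv : m ≤ v := (le_min m1 m2).trans u2
  rcases hm with rfl | rfl | rfl | rfl
  · exact q1 ⟨mp, m3, m2, mv⟩
  · exact q2 ⟨mp, m4, m1, mv⟩
  · exact q3 ⟨mp, m1, m4, mv⟩
  · exact q4 ⟨mp, m2, m3, mv⟩

end tree

/-! ### copies of `H4` -/

theorem cases3 : ∀ f : Finset (Fin 4), f.card = 3 → f = {0, 2, 3} ∨ f = {1, 2, 3} ∨ f = {0, 1, 2} ∨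
    f = {0, 1, 3} := by decide

theorem n012 : ({0, 1, 2} : Finset (Fin 4)) ∉ H4 := by
  intro h
  rcases h with h | h
  · exact absurd h (by decide)
  · exact absurd h (by decide)

theorem n013 : ({0, 1, 3} : Finset (Fin 4)) ∉ H4 := by
  intro h
  rcases h with h | h
  · exact absurd h (by decide)
  · exact absurd h (by decide)

theorem map3 (φ : Fin 4 ↪ ℕ) (i j l : Fin 4) : ({i, j, l} : Finset (Fin 4)).map φ = {φ i, φ j, φ l} := by
  simp [Finset.map_insert]

theorem mk_copy {G : Set (Finset ℕ)} {a b c d : ℕ} (hab : a ≠ b) (hac : a ≠ c) (had : a ≠ d)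
    (hbc : b ≠ c) (hbd : b ≠ d) (hcd : c ≠ d) (h1 : ({a, c, d} : Finset ℕ) ∈ G)
    (h2 : ({b, c, d} : Finset ℕ) ∈ G) (h3 : ({a, b, c} : Finset ℕ) ∉ G)
    (h4 : ({a, b, d} : Finset ℕ) ∉ G) : IndCopy 3 H4 G := by
  have hinj : Function.Injective ![a, b, c, d] := by
    intro i j h
    fin_cases i <;> fin_cases j <;> simp_all
  refine ⟨⟨![a, b, c, d], hinj⟩, fun f hf => ?_⟩
  rcases cases3 f hf with rfl | rfl | rfl | rfl <;> rw [map3]
  · exact ⟨fun _ => h1, fun _ => Or.inl rfl⟩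
  · exact ⟨fun _ => h2, fun _ => Or.inr rfl⟩
  · exact ⟨fun h => absurd h n012, fun h => absurd h h3⟩
  · exact ⟨fun h => absurd h n013, fun h => absurd h h4⟩

/-! ### the theorem for a tree -/

theorem strong {D : ℕ → ℕ → ℚ} (T : Tr D) : StrongSat 3 H4 (GG D) := by
  refine ⟨?_, ?_⟩
  · rintro ⟨φ, hφ⟩
    have e1 := (hφ {0, 2, 3} (by decide)).1 (Or.inl rfl)
    have e2 := (hφ {1, 2, 3} (by decide)).1 (Or.inr rfl)
    have e3 := fun h => n012 ((hφ {0, 1, 2} (by decide)).2 h)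
    have e4 := fun h => n013 ((hφ {0, 1, 3} (by decide)).2 h)
    rw [map3] at e1 e2 e3 e4
    have hne : ∀ i j : Fin 4, i ≠ j → φ i ≠ φ j := fun i j h h' => h (φ.injective h')
    exact nocopy T (hne 0 1 (by decide)) (hne 0 2 (by decide)) (hne 0 3 (by decide))
      (hne 1 2 (by decide)) (hne 1 3 (by decide)) (hne 2 3 (by decide)) e1 e2 e3 e4
  · intro P hP hcard hfin
    obtain ⟨f, hf⟩ := hP
    obtain ⟨x, y, z, hxy, hxz, hyz, rfl, hlt, heq⟩ := order3 T f (hcard f hf)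
    -- the bad vertices
    obtain ⟨B, hB⟩ : ∃ B : Finset ℕ, ∀ e ∈ P, (x ∈ e ∨ y ∈ e ∨ z ∈ e) → ∀ v ∈ e, v ∈ B := by
      have h1 : ({e | e ∈ P ∧ x ∈ e} ∪ {e | e ∈ P ∧ y ∈ e} ∪ {e | e ∈ P ∧ z ∈ e}).Finite :=
        ((hfin x).union (hfin y)).union (hfin z)
      refine ⟨h1.toFinset.biUnion id, fun e he h v hv => ?_⟩
      rw [Finset.mem_biUnion]
      refine ⟨e, ?_, hv⟩
      rw [Set.Finite.mem_toFinset]
      rcases h with h | h | h
      · exact Or.inl (Or.inl ⟨he, h⟩)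
      · exact Or.inl (Or.inr ⟨he, h⟩)
      · exact Or.inr ⟨he, h⟩
    choose wt hwt1 hwt2 using T.rich x
    -- avoid the values of the bad vertices
    obtain ⟨l', h1, h2, h3⟩ := avoid (B.image fun v => D v x) hlt
    obtain ⟨t, ht1, ht2, ht3⟩ : ∃ t, l' < t ∧ t < D x y ∧ (Dy t ↔ ¬ Dy (D x z)) := by
      by_cases h : Dy (D x z)
      · obtain ⟨t, a1, a2, a3⟩ := ndy_dense h2
        exact ⟨t, a1, a2, ⟨fun h' => absurd h' a3, fun h' => absurd h h'⟩⟩
      · obtain ⟨t, a1, a2, a3⟩ := dy_dense h2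
        exact ⟨t, a1, a2, ⟨fun _ => h, fun _ => a3⟩⟩
    obtain ⟨w, hw, hwx, hwt⟩ : ∃ w, w = wt t ∧ w ≠ x ∧ D w x = t := ⟨wt t, rfl, hwt1 t, hwt2 t⟩
    have hwB : w ∉ B := by
      intro h
      apply h3 t _ ⟨ht1, ht2⟩
      rw [Finset.mem_image]
      exact ⟨w, h, hwt⟩
    have hlt1 : D x z < t := h1.trans_lt ht1
    have hwy : w ≠ y := by
      intro h
      rw [h, T.sym] at hwt
      linarith
    have hwz : w ≠ z := by
      intro h
      rw [h, T.sym] at hwt
      linarith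
    -- the values at `w`
    have hDwy : D w y = t := by
      have a1 := T.um w x y hwx hwy hxy
      have a2 := T.um w y x hwy hwx hxy.symm
      rw [hwt] at a1 a2
      rw [T.sym y x] at a2
      apply le_antisymm
      · rcases min_le_iff.1 a2 with h | h
        · exact h
        · linarith
      · rwa [min_eq_left ht2.le] at a1
    have hDwz : D w z = D x z := by
      have a1 := T.um w x z hwx hwz hxz
      have a2 := T.um x w z hwx.symm hxz hwz
      rw [hwt] at a1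
      rw [T.sym x w, hwt] at a2
      apply le_antisymm
      · rcases min_le_iff.1 a2 with h | h
        · linarith
        · exact h
      · rwa [min_eq_right hlt1.le] at a1
    -- the status of the four triples before the perturbation
    have g1 : ({x, z, y} : Finset ℕ) ∈ GG D ↔ Dy (D x z) :=
      mem_GG T hxz hlt.le (by rw [T.sym z y, heq])
    have g2 : ({w, x, y} : Finset ℕ) ∈ GG D ↔ Dy t := by
      rw [← hwt]
      exact mem_GG T hwx (by rw [hwt, hDwy]) (by rw [hwt]; exact ht2.le)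
    have g3 : ({w, z, x} : Finset ℕ) ∈ GG D ↔ Dy (D x z) := by
      rw [← hDwz]
      exact mem_GG T hwz (by rw [hDwz, hwt]; exact hlt1.le) (by rw [hDwz, T.sym z x])
    have g4 : ({w, z, y} : Finset ℕ) ∈ GG D ↔ Dy (D x z) := by
      rw [← hDwz]
      exact mem_GG T hwz (by rw [hDwz, hDwy]; exact hlt1.le) (by rw [hDwz, T.sym z y, heq])
    have nP : ∀ e : Finset ℕ, w ∈ e → (x ∈ e ∨ y ∈ e ∨ z ∈ e) → e ∉ P := by
      intro e he h hP
      exact hwB (hB e hP h w he)
    have m1 : w ∈ ({w, x, y} : Finset ℕ) := Finset.mem_insert_self _ _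
    have m2 : x ∈ ({w, x, y} : Finset ℕ) := Finset.mem_insert_of_mem (Finset.mem_insert_self _ _)
    have m3 : w ∈ ({w, z, x} : Finset ℕ) := Finset.mem_insert_self _ _
    have m4 : z ∈ ({w, z, x} : Finset ℕ) := Finset.mem_insert_of_mem (Finset.mem_insert_self _ _)
    have m5 : w ∈ ({w, z, y} : Finset ℕ) := Finset.mem_insert_self _ _
    have m6 : z ∈ ({w, z, y} : Finset ℕ) := Finset.mem_insert_of_mem (Finset.mem_insert_self _ _)
    have k1 : ({x, y, z} : Finset ℕ) ∈ symmDiff (GG D) P ↔ ¬ Dy (D x z) := by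
      rw [sd_iff' hf, ← g1, perm1 x z y]
    have k2 : ({w, x, y} : Finset ℕ) ∈ symmDiff (GG D) P ↔ Dy t := by
      rw [sd_iff (nP _ m1 (Or.inl m2)), g2]
    have k3 : ({w, z, x} : Finset ℕ) ∈ symmDiff (GG D) P ↔ Dy (D x z) := by
      rw [sd_iff (nP _ m3 (Or.inr (Or.inr m4))), g3]
    have k4 : ({w, z, y} : Finset ℕ) ∈ symmDiff (GG D) P ↔ Dy (D x z) := by
      rw [sd_iff (nP _ m5 (Or.inr (Or.inr m6))), g4]
    by_cases h : Dy (D x z)
    · -- a = x, b = y, c = w, d = z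
      refine mk_copy (a := x) (b := y) (c := w) (d := z) hxy hwx.symm hxz hwy.symm hyz hwz ?_ ?_ ?_ ?_
      · rw [perm4 x w z]; exact k3.2 h
      · rw [perm4 y w z]; exact k4.2 h
      · rw [perm3 x y w]; exact fun h' => (ht3.1 (k2.1 h')) h
      · exact fun h' => k1.1 h' h
    · -- a = z, b = w, c = x, d = y
      refine mk_copy (a := z) (b := w) (c := x) (d := y) hwz.symm hxz.symm hyz.symm hwx hwy hxy ?_ ?_ ?_ ?_
      · rw [perm4 z x y]; exact k1.2 h
      · exact k2.2 (ht3.2 h)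
      · rw [perm2 z w x]; exact fun h' => h (k3.1 h')
      · rw [perm2 z w y]; exact fun h' => h (k4.1 h')

/-! ### the tree of the finite sets of rational numbers -/

open Classical in
/-- the least element of the symmetric difference -/
noncomputable def dd (x y : Finset ℚ) : ℚ :=
  if h : (symmDiff x y).Nonempty then (symmDiff x y).min' h else 0

theorem dd_spec {x y : Finset ℚ} (h : x ≠ y) : ¬ (dd x y ∈ x ↔ dd x y ∈ y) ∧
    ∀ s < dd x y, (s ∈ x ↔ s ∈ y) := by
  have hne : (symmDiff x y).Nonempty := by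
    rw [Finset.nonempty_iff_ne_empty]
    intro h'
    exact h (symmDiff_eq_bot.1 h')
  have e : dd x y = (symmDiff x y).min' hne := by rw [dd, dif_pos hne]
  constructor
  · have h1 := Finset.min'_mem _ hne
    rw [← e, Finset.mem_symmDiff] at h1
    tauto
  · intro s hs
    by_contra hcon
    have h2 : s ∈ symmDiff x y := by
      rw [Finset.mem_symmDiff]
      tauto
    have h3 := Finset.min'_le _ s h2
    rw [← e] at h3
    linarith

theorem tree_ex : ∃ D : ℕ → ℕ → ℚ, Tr D := by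
  obtain ⟨e⟩ : Nonempty (ℕ ≃ Finset ℚ) := nonempty_equiv_of_countable
  have hne : ∀ x y, x ≠ y → e x ≠ e y := fun x y h h' => h (e.injective h')
  refine ⟨fun x y => dd (e x) (e y), ?_, ?_, ?_, ?_⟩
  · intro x y
    show dd (e x) (e y) = dd (e y) (e x)
    unfold dd
    simp only [symmDiff_comm (e y) (e x)]
  · intro x y z hxy hxz hyz
    show min (dd (e x) (e y)) (dd (e y) (e z)) ≤ dd (e x) (e z)
    by_contra hcon
    rw [not_le, lt_min_iff] at hcon
    have h1 := (dd_spec (hne x y hxy)).2 _ hcon.1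
    have h2 := (dd_spec (hne y z hyz)).2 _ hcon.2
    exact (dd_spec (hne x z hxz)).1 (h1.trans h2)
  · rintro x y z hxy hxz hyz ⟨h1, h2⟩
    change dd (e x) (e y) = dd (e x) (e z) at h1
    change dd (e x) (e y) = dd (e y) (e z) at h2
    have a1 := (dd_spec (hne x y hxy)).1
    have a2 := (dd_spec (hne x z hxz)).1
    have a3 := (dd_spec (hne y z hyz)).1
    rw [← h1] at a2
    rw [← h2] at a3
    tauto
  · intro x t
    obtain ⟨y, hy⟩ : ∃ y : Finset ℚ, ∀ s, s ∈ y ↔ ((s ∈ e x ∧ s ≠ t) ∨ (s ∉ e x ∧ s = t)) := by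
      by_cases h : t ∈ e x
      · refine ⟨(e x).erase t, fun s => ?_⟩
        rw [Finset.mem_erase]
        constructor
        · rintro ⟨a1, a2⟩
          exact Or.inl ⟨a2, a1⟩
        · rintro (⟨a1, a2⟩ | ⟨a1, a2⟩)
          · exact ⟨a2, a1⟩
          · rw [a2] at a1
            exact absurd h a1
      · refine ⟨insert t (e x), fun s => ?_⟩
        rw [Finset.mem_insert]
        constructor
        · rintro (a1 | a1)
          · right
            rw [a1]
            exact ⟨h, rfl⟩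
          · left
            refine ⟨a1, fun h' => ?_⟩
            rw [h'] at a1
            exact h a1
        · rintro (⟨a1, a2⟩ | ⟨a1, a2⟩)
          · exact Or.inr a1
          · exact Or.inl a2
    have hyx : y ≠ e x := by
      intro h
      have := hy t
      rw [h] at this
      tauto
    have h2 : dd y (e x) = t := by
      by_contra hne
      have h3 := (dd_spec hyx).1
      rw [hy] at h3
      tauto
    refine ⟨e.symm y, ?_, ?_⟩
    · intro h
      apply hyx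
      rw [← h, e.apply_symm_apply]
    · show dd (e (e.symm y)) (e x) = t
      rw [e.apply_symm_apply]
      exact h2

/-- **job E4** -/
theorem e4 : S_E4 := by
  obtain ⟨D, T⟩ := tree_ex
  exact ⟨GG D, strong T⟩

end Q185.ISatE4
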